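import Pool.Agent.Q55.Rom

/-!
# Even numbers `p + m ^ 2` with `m ≤ δ log x`, both summands from arbitrary dense sets

Let `P` be ANY set of at least `α x / log x` primes up to `x`, and let `S` be ANY set of at least `β log x` odd numbers up
to `δ log x`. Then at least `c x` of the even numbers up to `2 x` are sums `p + m ^ 2` with `p` in `P` and `m` in `S`;
`c > 0` depends only on `α`, `β`, `δ`, which are arbitrary positive numbers. This is a consequence of an inequality for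
all sets of primes up to `x` and all sets of odd numbers up to `x ^ (1 / 40)`.
-/

set_option autoImplicit false

open Finset Filter

namespace Pool.Agent.Results.MP_d48457_nt.LogarithmicSquares

open Classical in
/-- the `n` in `[1, x]` such that `2 n = p + m ^ 2` for some `p` in `P` and some `m` in `S` -/
noncomputable def sums (P S : Finset ℕ) (x : ℕ) : Finset ℕ :=
  (Icc 1 x).filter (fun n => ∃ p ∈ P, ∃ m ∈ S, 2 * n = p + m ^ 2)

lemma ev_pow : ∀ᶠ x : ℕ in atTop, ∀ M : ℕ, (M : ℝ) ≤ (x : ℝ) ^ (1 / 40 : ℝ) →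
    2 * (M : ℝ) ^ 2 ≤ (x : ℝ) ^ (1 / 16 : ℝ) := by
  have h1 : Tendsto (fun x : ℕ => (x : ℝ) ^ (1 / 80 : ℝ)) atTop atTop :=
    (tendsto_rpow_atTop (by norm_num)).comp tendsto_natCast_atTop_atTop
  filter_upwards [h1.eventually_ge_atTop 2, eventually_ge_atTop 1] with x hx hx1 M hM
  have hx0 : (0 : ℝ) < x := by exact_mod_cast (by omega : 0 < x)
  have h2 : (M : ℝ) ^ 2 ≤ ((x : ℝ) ^ (1 / 40 : ℝ)) ^ 2 := pow_le_pow_left₀ (Nat.cast_nonneg _) hM 2
  have h3 : ((x : ℝ) ^ (1 / 40 : ℝ)) ^ 2 = (x : ℝ) ^ (1 / 20 : ℝ) := by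
    rw [← Real.rpow_natCast, ← Real.rpow_mul hx0.le]
    norm_num
  have h4 : (x : ℝ) ^ (1 / 16 : ℝ) = (x : ℝ) ^ (1 / 80 : ℝ) * (x : ℝ) ^ (1 / 20 : ℝ) := by
    rw [← Real.rpow_add hx0]
    norm_num
  rw [h3] at h2
  rw [h4]
  exact mul_le_mul hx h2 (sq_nonneg _) (by positivity)

lemma ev_log (δ : ℝ) : ∀ᶠ x : ℕ in atTop, δ * Real.log x ≤ (x : ℝ) ^ (1 / 40 : ℝ) := by
  have h1 := (isLittleO_log_rpow_atTop (r := 1 / 40) (by norm_num)).bound
    (show (0 : ℝ) < 1 / (|δ| + 1) by positivity)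
  have h2 := (tendsto_natCast_atTop_atTop (R := ℝ)).eventually h1
  filter_upwards [h2, eventually_ge_atTop 1] with x hx hx1
  have hx1r : (1 : ℝ) ≤ x := by exact_mod_cast hx1
  have hl := Real.log_nonneg hx1r
  rw [Real.norm_of_nonneg hl, Real.norm_of_nonneg (by positivity), one_div, inv_mul_eq_div,
    le_div_iff₀ (by positivity)] at hx
  have h3 : δ * Real.log x ≤ (|δ| + 1) * Real.log x := by
    apply mul_le_mul_of_nonneg_right _ hl
    have := le_abs_self δ
    linarith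
  linarith

/-- **Theorem.** (1) There is `C > 0` such that for all large `x`, all `M ≤ x ^ (1 / 40)`, ALL sets `S` of odd numbers
in `[3, M]` and ALL sets `P` of primes in `[3, x]` the number `N` of the even numbers up to `2 x` which are sums
`p + m ^ 2` with `p ∈ P`, `m ∈ S` satisfies `(#P #S) ^ 2 ≤ N (#P #S + C M ^ 2 x / (log x) ^ 2)`.
(2) For all `α, β, δ > 0` there is `c > 0` such that for all large `x`, ALL sets `S` of at least `β log x` odd numbers
up to `δ log x` and ALL sets `P` of at least `α x / log x` primes up to `x`, at least `c x` of the even numbers up to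
`2 x` are such sums. -/
theorem result :
    (∃ C : ℝ, 0 < C ∧ ∀ᶠ x : ℕ in atTop, ∀ M : ℕ, (M : ℝ) ≤ (x : ℝ) ^ (1 / 40 : ℝ) →
      ∀ S ⊆ Icc 3 M, (∀ m ∈ S, Odd m) → ∀ P ⊆ Icc 3 x, (∀ p ∈ P, p.Prime) →
        ((P.card : ℝ) * S.card) ^ 2 ≤
          (sums P S x).card * ((P.card : ℝ) * S.card + C * ((M : ℝ) ^ 2 * x / Real.log x ^ 2))) ∧
    ∀ α β δ : ℝ, 0 < α → 0 < β → 0 < δ → ∃ c : ℝ, 0 < c ∧ ∀ᶠ x : ℕ in atTop,
      ∀ S : Finset ℕ, (∀ m ∈ S, Odd m ∧ (m : ℝ) ≤ δ * Real.log x) → β * Real.log x ≤ S.card →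
      ∀ P : Finset ℕ, (∀ p ∈ P, p.Prime ∧ p ≤ x) → α * (x / Real.log x) ≤ P.card →
        c * x ≤ (sums P S x).card := by
  classical
  obtain ⟨C, hC, X₀, h⟩ := Pool.Agent.Q55.Rom.squares
  have key : ∀ᶠ x : ℕ in atTop, ∀ M : ℕ, (M : ℝ) ≤ (x : ℝ) ^ (1 / 40 : ℝ) →
      ∀ S ⊆ Icc 3 M, (∀ m ∈ S, Odd m) → ∀ P ⊆ Icc 3 x, (∀ p ∈ P, p.Prime) →
        ((P.card : ℝ) * S.card) ^ 2 ≤
          (sums P S x).card * ((P.card : ℝ) * S.card + C * ((M : ℝ) ^ 2 * x / Real.log x ^ 2)) := by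
    filter_upwards [ev_pow, eventually_ge_atTop X₀] with x hx hxX M hM S hS hSo P hP hPp
    have h1 := h x M S P hxX (hx M hM)
      (fun m hm => by
        have := mem_Icc.1 (hS hm)
        exact mem_Icc.2 ⟨by omega, this.2⟩)
      (fun m hm => ⟨(mem_Icc.1 (hS hm)).1, Nat.odd_iff.1 (hSo m hm)⟩)
      (fun p hp => by
        have := mem_Icc.1 (hP hp)
        unfold Pool.Agent.H197R2.PG.QQ
        rw [mem_filter, mem_Ioc]
        exact ⟨⟨by omega, this.2⟩, hPp p hp⟩)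
    have h2 : (Pool.Agent.Q55.Rom.RP (S.image (fun m => m ^ 2)) P x).card ≤ (sums P S x).card := by
      apply card_le_card
      intro n hn
      unfold Pool.Agent.Q55.Rom.RP at hn
      unfold sums
      rw [mem_filter] at hn ⊢
      obtain ⟨h3, a, ha, q, hq, haq⟩ := hn
      obtain ⟨m, hm, rfl⟩ := mem_image.1 ha
      exact ⟨h3, q, hq, m, hm, by omega⟩
    have h3 : ((Pool.Agent.Q55.Rom.RP (S.image (fun m => m ^ 2)) P x).card : ℝ) ≤ (sums P S x).card := by
      exact_mod_cast h2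
    calc ((P.card : ℝ) * S.card) ^ 2 = ((S.card : ℝ) * P.card) ^ 2 := by ring
      _ ≤ _ := h1
      _ ≤ (sums P S x).card * ((S.card : ℝ) * P.card + C * (M : ℝ) ^ 2 * x / Real.log x ^ 2) := by
        apply mul_le_mul_of_nonneg_right h3
        have : 0 ≤ C * (M : ℝ) ^ 2 * x / Real.log x ^ 2 := by positivity
        positivity
      _ = _ := by ring
  refine ⟨⟨C, by linarith, key⟩, fun α β δ hα hβ hδ => ?_⟩
  obtain ⟨a, ha⟩ : ∃ a : ℝ, a = α * β / 4 := ⟨_, rfl⟩
  have ha0 : 0 < a := by rw [ha]; positivity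
  have hlogt : Tendsto (fun x : ℕ => Real.log (x : ℝ)) atTop atTop :=
    Real.tendsto_log_atTop.comp tendsto_natCast_atTop_atTop
  have hxl : ∀ᶠ x : ℕ in atTop, 2 / α * Real.log x ≤ (x : ℝ) := by
    filter_upwards [ev_log (2 / α), eventually_ge_atTop 1] with x hx hx1
    refine hx.trans ?_
    have hx1r : (1 : ℝ) ≤ x := by exact_mod_cast hx1
    calc (x : ℝ) ^ (1 / 40 : ℝ) ≤ (x : ℝ) ^ (1 : ℝ) := Real.rpow_le_rpow_of_exponent_le hx1r (by norm_num)
      _ = x := Real.rpow_one _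
  refine ⟨a / (1 + C * δ ^ 2 / a), by positivity, ?_⟩
  filter_upwards [key, ev_log δ, hlogt.eventually_ge_atTop (max 1 (2 / β)), hxl, eventually_ge_atTop 3] with
    x hkey hlog hL hxl hx3 S hS hSc P hP hPc
  obtain ⟨L, hLd⟩ : ∃ L : ℝ, L = Real.log x := ⟨_, rfl⟩
  rw [← hLd] at hlog hL hxl hSc hPc
  have hL1 : 1 ≤ L := (le_max_left _ _).trans hL
  have hL2 : 2 / β ≤ L := (le_max_right _ _).trans hL
  rw [div_le_iff₀ hβ] at hL2
  have hx0 : (0 : ℝ) < x := by exact_mod_cast (by omega : 0 < x)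
  obtain ⟨M, hM⟩ : ∃ M : ℕ, M = ⌊δ * L⌋₊ := ⟨_, rfl⟩
  have hMle : (M : ℝ) ≤ δ * L := by rw [hM]; exact Nat.floor_le (by positivity)
  have h1 := hkey M (hMle.trans hlog) (S.erase 1) (fun m hm => by
    rw [mem_erase] at hm
    obtain ⟨⟨k, hk⟩, h2⟩ := hS m hm.2
    rw [mem_Icc]
    refine ⟨by omega, ?_⟩
    rw [hM]
    exact Nat.le_floor (by rw [hLd]; exact h2)) (fun m hm => (hS m (mem_of_mem_erase hm)).1)
    (P.erase 2) (fun p hp => by
      rw [mem_erase] at hp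
      obtain ⟨h2, h3⟩ := hP p hp.2
      rw [mem_Icc]
      have := h2.two_le
      exact ⟨by omega, h3⟩) (fun p hp => (hP p (mem_of_mem_erase hp)).1)
  have hsub : ((sums (P.erase 2) (S.erase 1) x).card : ℝ) ≤ (sums P S x).card := by
    apply Nat.cast_le.2
    apply card_le_card
    intro n hn
    unfold sums at hn ⊢
    rw [mem_filter] at hn ⊢
    obtain ⟨h2, p, hp, m, hm, h3⟩ := hn
    exact ⟨h2, p, mem_of_mem_erase hp, m, mem_of_mem_erase hm, h3⟩
  have hcS : β * L / 2 ≤ ((S.erase 1).card : ℝ) := by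
    have h2 := Finset.pred_card_le_card_erase (s := S) (a := 1)
    have h3 : (S.card : ℝ) ≤ (S.erase 1).card + 1 := by
      have : S.card ≤ (S.erase 1).card + 1 := by omega
      exact_mod_cast this
    nlinarith
  have hcP : α * (x / L) / 2 ≤ ((P.erase 2).card : ℝ) := by
    have h2 := Finset.pred_card_le_card_erase (s := P) (a := 2)
    have h3 : (P.card : ℝ) ≤ (P.erase 2).card + 1 := by
      have : P.card ≤ (P.erase 2).card + 1 := by omega
      exact_mod_cast this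
    have h4 : 1 ≤ α * (x / L) / 2 := by
      rw [le_div_iff₀ (by norm_num), ← mul_div_assoc, le_div_iff₀ (by linarith)]
      have h5 : 2 / α * L * α ≤ x * α := mul_le_mul_of_nonneg_right hxl hα.le
      have h6 : 2 / α * L * α = 2 * L := by field_simp
      linarith
    linarith
  obtain ⟨T, hT⟩ : ∃ T : ℝ, T = ((P.erase 2).card : ℝ) * (S.erase 1).card := ⟨_, rfl⟩
  rw [← hT, ← hLd] at h1
  have hTa : a * x ≤ T := by
    rw [hT, ha]
    calc α * β / 4 * x = (α * (x / L) / 2) * (β * L / 2) := by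
          field_simp
          norm_num
      _ ≤ _ := mul_le_mul hcP hcS (by positivity) (Nat.cast_nonneg _)
  have hT0 : 0 < T := lt_of_lt_of_le (by positivity) hTa
  have h2 : C * ((M : ℝ) ^ 2 * x / L ^ 2) ≤ T * (C * δ ^ 2 / a) := by
    have h3 : (M : ℝ) ^ 2 ≤ (δ * L) ^ 2 := pow_le_pow_left₀ (Nat.cast_nonneg M) hMle 2
    calc C * ((M : ℝ) ^ 2 * x / L ^ 2) ≤ C * ((δ * L) ^ 2 * x / L ^ 2) := by gcongr
      _ = C * δ ^ 2 * x := by field_simp
      _ = (a * x) * (C * δ ^ 2 / a) := by field_simp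
      _ ≤ T * (C * δ ^ 2 / a) := mul_le_mul_of_nonneg_right hTa (by positivity)
  have h3 : T * T ≤ T * ((sums (P.erase 2) (S.erase 1) x).card * (1 + C * δ ^ 2 / a)) := by
    calc T * T = T ^ 2 := by ring
      _ ≤ _ := h1
      _ ≤ (sums (P.erase 2) (S.erase 1) x).card * (T + T * (C * δ ^ 2 / a)) := by gcongr
      _ = _ := by ring
  have h4 := le_of_mul_le_mul_left h3 hT0
  have h5 : 0 < 1 + C * δ ^ 2 / a := by positivity
  rw [div_mul_eq_mul_div, div_le_iff₀ h5]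
  calc a * x ≤ T := hTa
    _ ≤ _ := h4
    _ ≤ (sums P S x).card * (1 + C * δ ^ 2 / a) := mul_le_mul_of_nonneg_right hsub h5.le

end Pool.Agent.Results.MP_d48457_nt.LogarithmicSquares
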