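import Pool.Agent.Q145.Shift

/-!
# Even numbers as a sum of a prime and a square, both from arbitrary dense sets

Let `k ≥ 2`, `δ > 0` and `0 < ε ≤ 1`. There is `B` such that for all large `X`, all `N` with `(log X)^B ≤ N ≤ X^(1/8)`,
EVERY set `T` of at least `δ N` odd integers in `[1, N]` and EVERY set `P` of at least `δ X / log X` primes up to `X`, a
positive proportion of all EVEN integers `b` up to `X` has the following property: there is a `k`-term arithmetic
progression in `T`, of difference at most `N^ε (log X)^B`, such that `b - m²` is an odd prime of the set `P` for every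
term `m` of it. In particular a positive proportion of all even `b ≤ X` are sums of a prime of `P` and of the square of
an element of `T`, in `k` ways.
-/

set_option autoImplicit false

namespace Pool.Agent.Results.MP_d48457_nt.PolylogProgressions

open Finset Polynomial

/-- `T` contains the `k` terms of an arithmetic progression with difference between `1` and `D`, and `b` is the sum of
`m²` and of a prime `≠ 2` belonging to `P`, for each of these terms `m` -/
def Good (T P : Finset ℕ) (k : ℕ) (D : ℝ) (b : ℕ) : Prop :=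
  ∃ n r : ℕ, 1 ≤ r ∧ (r : ℝ) ≤ D ∧ ∀ j < k, n + j * r ∈ T ∧ ∃ p ∈ P, p ≠ 2 ∧ p.Prime ∧ b = p + (n + j * r) ^ 2

open Classical in
/-- **A positive proportion of all even numbers `b`.** -/
theorem result (k : ℕ) (hk : 2 ≤ k) (δ ε : ℝ) (hδ : 0 < δ) (hε : 0 < ε) (hε1 : ε ≤ 1) :
    ∃ B : ℕ, ∃ c : ℝ, 0 < c ∧ ∃ X₀ : ℕ, ∀ X N : ℕ, X₀ ≤ X → Real.log X ^ B ≤ N → N ^ 8 ≤ X →
      ∀ T ⊆ Icc 1 N, (∀ m ∈ T, Odd m) → δ * N ≤ T.card →
      ∀ P ⊆ Icc 1 X, (∀ p ∈ P, p.Prime) → δ * (X / Real.log X) ≤ P.card →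
        c * X ≤ ((Icc 1 X).filter (fun b => Even b ∧ Good T P k ((N : ℝ) ^ ε * Real.log X ^ B) b)).card := by
  have hd : (-X ^ 2 : ℤ[X]).natDegree = 2 := by rw [natDegree_neg]; exact natDegree_X_pow 2
  obtain ⟨B, c, hc, X₀, h⟩ :=
    Pool.Agent.Q145.Shift.big (-X ^ 2 : ℤ[X]) (by rw [hd]; norm_num) 2 k hk δ ε hδ hε hε1
  refine ⟨B, c, hc, X₀, fun X N hX hN hNX T hT hTo hTc P hP hPp hPc => ?_⟩
  obtain ⟨G, hG, hGc, hGb⟩ := h X N hX hN (by rw [hd]; exact hNX) T hT hTc P hP hPp hPc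
  refine hGc.trans ?_
  have hsub : G ⊆ (Icc 1 X).filter (fun b => Even b ∧ Good T P k ((N : ℝ) ^ ε * Real.log X ^ B) b) := by
    intro b hb
    rw [mem_filter]
    obtain ⟨hb2, n, r, h2, h3, h4⟩ := hGb b hb
    have h7 : Good T P k ((N : ℝ) ^ ε * Real.log X ^ B) b := by
      refine ⟨n, r, h2, h3, fun j hj => ?_⟩
      obtain ⟨h5, p, hp, hp2, hpe⟩ := h4 j hj
      refine ⟨h5, p, hp, hp2.ne', hPp p hp, ?_⟩
      rw [eval_neg, eval_pow, eval_X] at hpe
      have h6 : (b : ℤ) = ((p + (n + j * r) ^ 2 : ℕ) : ℤ) := by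
        push_cast
        push_cast at hpe
        linarith
      exact_mod_cast h6
    refine ⟨hG hb, ?_, h7⟩
    obtain ⟨n', r', _, _, h8⟩ := h7
    obtain ⟨h9, p, hp, hp2, hpp, hpe⟩ := h8 0 (by omega)
    rw [hpe]
    exact (hpp.odd_of_ne_two hp2).add_odd ((hTo _ h9).pow)
  exact_mod_cast card_le_card hsub

end Pool.Agent.Results.MP_d48457_nt.PolylogProgressions
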