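import Pool.Agent.Q25.UReg4
import Pool.Agent.TH464.PW.Quad

/-!
# The laws of the almost primes among the `n - m ^ 2`, for every even `n`

For EVERY large even `n` which is not a square and for which the sieve density of the sequence `n - m ^ 2` is at most
`C / log n`, call `m` good if `n - m ^ 2` has no prime factor `≤ n ^ (1/r)`. In ALL intervals of length at least `n ^ θ`
the numbers of the good `m` in windows follow the Poisson law and the gaps between the good `m` are exponentially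
distributed, and almost all elements of an ARBITRARY set of good `m` (for instance of the `m` for which `n - m ^ 2` is
prime) are regular points of this set.
-/

set_option autoImplicit false

namespace Pool.Agent.Results.MP_d48457_nt.UniformLaws

open Finset Polynomial
open Pool.Agent.Q25.UReg (GoodP VP SmallDensity countP pois PoissonLawP GapLawP NoTr N RightOrder ConstantDensity
  badScales Irregular Sys)

/-- the polynomial `n - X ^ 2` -/
noncomputable def f (n : ℕ) : Fin 1 → ℤ[X] := fun _ => C (n : ℤ) - X ^ 2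

lemma f_eq (n : ℕ) (i : Fin 1) : f n i = Pool.Agent.TH464.PW.quad (-1) 0 n := by
  unfold f Pool.Agent.TH464.PW.quad
  simp only [map_neg, map_one, map_zero]
  ring

lemma sys (n : ℕ) (hsq : ¬ IsSquare n) (h1 : 1 ≤ n) : Sys 2 ((n : ℝ) ^ (1 : ℝ)) (f n) where
  irr i := by
    rw [f_eq]
    apply Pool.Agent.TH464.PW.quad_irr (-1) 0 n (by norm_num)
    · rintro p hp ⟨h, -, -⟩
      have h2 : (p : ℤ) ∣ 1 := (dvd_neg).1 h
      exact hp.one_lt.ne' (Nat.dvd_one.1 (by exact_mod_cast h2))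
    · rintro ⟨y, hy⟩
      apply hsq
      have h2 : (y.natAbs : ℤ) * y.natAbs = 4 * n := by
        rw [Int.natAbs_mul_self']
        linarith
      have h3 : y.natAbs * y.natAbs = 4 * n := by exact_mod_cast h2
      have h4 : 2 ∣ y.natAbs := by
        have h5 : 2 ∣ y.natAbs * y.natAbs := by rw [h3]; exact ⟨2 * n, by ring⟩
        rcases (Nat.Prime.dvd_mul Nat.prime_two).1 h5 with h6 | h6 <;> exact h6
      obtain ⟨z, hz⟩ := h4
      refine ⟨z, ?_⟩
      rw [hz] at h3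
      have h6 : 4 * (z * z) = 4 * n := by rw [← h3]; ring
      omega
  deg i := by
    rw [f_eq, Pool.Agent.TH464.PW.quad_deg _ _ _ (by norm_num)]
    norm_num
  degD i := by rw [f_eq, Pool.Agent.TH464.PW.quad_deg _ _ _ (by norm_num)]
  hgt i j := by
    rw [Real.rpow_one]
    have hn1 : (1 : ℝ) ≤ n := by exact_mod_cast h1
    have e : (f n i).coeff j = (if j = 0 then (n : ℤ) else 0) - (if j = 2 then 1 else 0) := by
      unfold f
      rw [coeff_sub, coeff_C, coeff_X_pow]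
    rw [e]
    split_ifs with h2 h3 h3
    · omega
    · push_cast
      rw [sub_zero, abs_of_nonneg (by linarith)]
    · push_cast
      rw [abs_neg, abs_one]
      exact hn1
    · push_cast
      rw [abs_zero]
      linarith
  adm p hp := by
    by_contra hcon
    push Not at hcon
    have hv : ∀ m : ℤ, (p : ℤ) ∣ (n : ℤ) - m ^ 2 := by
      intro m
      obtain ⟨i, hi⟩ := hcon m
      unfold f at hi
      simpa using hi
    have h2 := hv 0
    have h3 := hv 1
    have h4 : (p : ℤ) ∣ 1 := by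
      have h5 := dvd_sub h2 h3
      simpa using h5
    exact hp.one_lt.ne' (Nat.dvd_one.1 (by exact_mod_cast h4))

lemma noTr (n : ℕ) (U : ℝ) : NoTr (f n) U := by
  intro i j t ht _
  have e1 : f n i = f n j := rfl
  have hd : (f n j).natDegree ≠ 0 := by
    rw [f_eq, Pool.Agent.TH464.PW.quad_deg _ _ _ (by norm_num)]
    norm_num
  have h1 := Pool.Agent.Y879.GL.no_self (f n j) hd t (by omega)
  rw [e1]
  constructor
  · intro h
    exact h1 (by nth_rewrite 1 [h]; exact Associated.refl _)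
  · intro h
    apply h1
    nth_rewrite 1 [h]
    exact (Associated.refl _).neg_left

/-- **The laws of the almost primes among the `n - m ^ 2`, for every even `n`.** -/
theorem result (θ : ℝ) (hθ : 0 < θ) :
    (∀ (l₀ : ℕ) (x₀ ε : ℝ), 0 < ε → ∃ r₀ : ℕ, ∀ r : ℕ, r₀ ≤ r → ∀ C : ℝ, ∃ n₀ : ℕ, ∀ n : ℕ, n₀ ≤ n → Even n →
      ¬ IsSquare n → VP (f n) r n ≤ C / Real.log n → ∀ Z Y : ℕ, (n : ℝ) ^ θ ≤ Y →
        PoissonLawP (f n) r n Z Y x₀ ε ∧ GapLawP (f n) r n Z Y l₀ x₀ ε) ∧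
    ∃ r₀ : ℕ, ∀ r : ℕ, r₀ ≤ r → ∀ C ε : ℝ, 0 < ε → ∃ c : ℝ, 0 < c ∧ ∀ δ : ℝ, 0 < δ → ∃ B n₀ : ℕ,
      ∀ n : ℕ, n₀ ≤ n → Even n → ¬ IsSquare n → VP (f n) r n ≤ C / Real.log n →
        ∀ u Y : ℕ, (n : ℝ) ^ θ ≤ Y → Y ≤ n → Y ≤ u → ∀ A : Set ℕ, (∀ m ∈ A, GoodP (f n) r n m) →
          (N (Irregular A (VP (f n) r n) c δ B Y) u (u + Y) : ℝ) ≤ ε * (Y * VP (f n) r n) := by
  constructor
  · intro l₀ x₀ ε hε
    obtain ⟨r₀, _, h⟩ := Pool.Agent.Q25.UReg.poly_laws 1 2 1 1 θ one_pos one_pos hθ l₀ x₀ ε hε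
    refine ⟨r₀, fun r hr C => ?_⟩
    obtain ⟨n₀, hn₀⟩ := Filter.eventually_atTop.1 ((h r hr C).and (Filter.eventually_ge_atTop 1))
    refine ⟨n₀, fun n hn hev hsq hV Z Y hY => ?_⟩
    obtain ⟨h1, h2⟩ := hn₀ n hn
    exact h1 (f n) (sys n hsq h2) (Or.inl hV) (noTr n _) Z Y hY
  · obtain ⟨r₀, _, h⟩ := Pool.Agent.Q25.UReg.poly_reg 1 2 1 θ one_pos hθ
    refine ⟨r₀, fun r hr C ε hε => ?_⟩
    obtain ⟨c, hc, h1⟩ := h r hr C ε hε
    refine ⟨c, hc, fun δ hδ => ?_⟩
    obtain ⟨B, hB⟩ := h1 δ hδ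
    obtain ⟨n₀, hn₀⟩ := Filter.eventually_atTop.1 (hB.and (Filter.eventually_ge_atTop 1))
    refine ⟨B, n₀, fun n hn hev hsq hV u Y hXY hYX hYu A hA => ?_⟩
    obtain ⟨h1, h2⟩ := hn₀ n hn
    exact h1 (f n) (sys n hsq h2) (Or.inl hV) u Y hXY hYX hYu A hA

end Pool.Agent.Results.MP_d48457_nt.UniformLaws
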